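import Mathlib
import Pool.Agent.KS6_3.HT.MainK

set_option autoImplicit false
open MeasureTheory Set Complex
open scoped ContDiff ENNReal ComplexConjugate

namespace Pool.Agent.Results.MP_cbee92_an.ThinTriangles

/-- The thin Hartogs triangle `T_k = {(z, w) : |z| < |w| ^ k, |w| < 1}`.
`HartogsTriangle 1` is the Hartogs triangle `T` itself. -/
def HartogsTriangle (k : ℕ) : Set (ℂ × ℂ) := {p | ‖p.1‖ < ‖p.2‖ ^ k ∧ ‖p.2‖ < 1}

/-- Test functions on `U`: smooth, with compact support contained in `U`. -/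
def IsTest (U : Set (ℂ × ℂ)) (φ : ℂ × ℂ → ℂ) : Prop :=
  ContDiff ℝ ∞ φ ∧ HasCompactSupport φ ∧ tsupport φ ⊆ U

/-- `g` is the weak derivative of `u` on `U` in the real direction `v`. -/
def IsWeakDeriv (U : Set (ℂ × ℂ)) (u : ℂ × ℂ → ℂ) (v : ℂ × ℂ) (g : ℂ × ℂ → ℂ) : Prop :=
  ∀ φ, IsTest U φ → ∫ p in U, u p * fderiv ℝ φ p v = - ∫ p in U, g p * φ p

/-- The Sobolev space `W¹(U) = W^{1,2}(U)`: `u ∈ L²(U)`, with all first order weak
derivatives in `L²(U)`. -/
def MemW1 (U : Set (ℂ × ℂ)) (u : ℂ × ℂ → ℂ) : Prop :=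
  MemLp u 2 (volume.restrict U) ∧
    ∀ v : ℂ × ℂ, ∃ g : ℂ × ℂ → ℂ, MemLp g 2 (volume.restrict U) ∧ IsWeakDeriv U u v g

/-- `∂φ/∂z̄` -/
noncomputable def dzbar (φ : ℂ × ℂ → ℂ) (p : ℂ × ℂ) : ℂ :=
  (fderiv ℝ φ p (1, 0) + I * fderiv ℝ φ p (I, 0)) / 2

/-- `∂φ/∂w̄` -/
noncomputable def dwbar (φ : ℂ × ℂ → ℂ) (p : ℂ × ℂ) : ℂ :=
  (fderiv ℝ φ p (0, 1) + I * fderiv ℝ φ p (0, I)) / 2

/-- The form `f₁ dz̄ + f₂ dw̄` is `∂̄`-closed on `U` in the sense of distributions: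
`∂f₁/∂w̄ = ∂f₂/∂z̄`. -/
def DbarClosed (U : Set (ℂ × ℂ)) (f₁ f₂ : ℂ × ℂ → ℂ) : Prop :=
  ∀ φ, IsTest U φ → ∫ p in U, f₁ p * dwbar φ p = ∫ p in U, f₂ p * dzbar φ p

/-- `∂̄u = f₁ dz̄ + f₂ dw̄` on `U` in the sense of distributions. -/
def DbarEq (U : Set (ℂ × ℂ)) (u f₁ f₂ : ℂ × ℂ → ℂ) : Prop :=
  ∀ φ, IsTest U φ → ∫ p in U, u p * dzbar φ p = - ∫ p in U, f₁ p * φ p ∧
    ∫ p in U, u p * dwbar φ p = - ∫ p in U, f₂ p * φ p

end Pool.Agent.Results.MP_cbee92_an.ThinTriangles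

namespace Pool.Agent.Results.MP_cbee92_an.ThinTriangles

open Pool.Agent.H807R3 (i1 i2 WD D)
open Pool.Agent.KS6_3.HT (Wirt main_T)

variable {m : ℕ}

theorem toWD {f g h : ℂ × ℂ → ℂ} (ι : ℂ →L[ℝ] ℂ × ℂ) (c : ℂ)
    (mf : MemLp f 2 (volume.restrict (HartogsTriangle (m + 1))))
    (mg : MemLp g 2 (volume.restrict (HartogsTriangle (m + 1))))
    (mh : MemLp h 2 (volume.restrict (HartogsTriangle (m + 1))))
    (hg : IsWeakDeriv (HartogsTriangle (m + 1)) f (ι 1) g) (hh : IsWeakDeriv (HartogsTriangle (m + 1)) f (ι I) h) :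
    MemLp (fun p => (g p + c * I * h p) / 2) 2 (volume.restrict (HartogsTriangle (m + 1))) ∧
    WD (HartogsTriangle (m + 1)) ι c f (fun p => (g p + c * I * h p) / 2) := by
  constructor
  · have := (mg.add (mh.const_mul (c * I))).const_mul (1 / 2 : ℂ)
    refine this.congr_norm ?_ ?_
    · have h1 := (mg.1.add (mh.1.const_mul (c * I))).const_mul (1 / 2 : ℂ)
      refine h1.congr ?_
      refine Filter.Eventually.of_forall (fun p => ?_)
      simp only [Pi.add_apply]; ring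
    · refine Filter.Eventually.of_forall (fun p => ?_)
      congr 1
      simp only [Pi.add_apply]; ring
  · intro φ hφ
    have hφ' : IsTest (HartogsTriangle (m + 1)) φ := hφ
    have h1 := hg φ hφ'
    have h2 := hh φ hφ'
    have iφ : ∀ {k : ℂ × ℂ → ℂ}, MemLp k 2 (volume.restrict (HartogsTriangle (m + 1))) →
        Integrable (fun p => k p * φ p) (volume.restrict (HartogsTriangle (m + 1))) :=
      fun hk => hk.integrable_mul (hφ.cc.memLp.restrict _)
    have iD : ∀ v, Integrable (fun p => f p * fderiv ℝ φ p v) (volume.restrict (HartogsTriangle (m + 1))) :=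
      fun v => mf.integrable_mul ((hφ.cc.fderiv_apply v).memLp.restrict _)
    have e1 : ∫ p in HartogsTriangle (m + 1), f p * D ι c φ p =
        ((∫ p in HartogsTriangle (m + 1), f p * fderiv ℝ φ p (ι 1)) +
          (c * I) * ∫ p in HartogsTriangle (m + 1), f p * fderiv ℝ φ p (ι I)) / 2 := by
      rw [← integral_const_mul, ← integral_add (iD _) ((iD _).const_mul _), ← integral_div]
      congr 1
      funext p
      unfold D
      ring
    have e2 : ∫ p in HartogsTriangle (m + 1), ((g p + c * I * h p) / 2) * φ p =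
        ((∫ p in HartogsTriangle (m + 1), g p * φ p) +
          (c * I) * ∫ p in HartogsTriangle (m + 1), h p * φ p) / 2 := by
      rw [← integral_const_mul, ← integral_add (iφ mg) ((iφ mh).const_mul _), ← integral_div]
      congr 1
      funext p
      ring
    rw [e1, e2, h1, h2]; ring

theorem toWirt {f : ℂ × ℂ → ℂ} (h : MemW1 (HartogsTriangle (m + 1)) f) :
    ∃ A A' C C' : ℂ × ℂ → ℂ, Wirt m f A A' C C' := by
  obtain ⟨mf, hd⟩ := h
  obtain ⟨g1, m1, w1⟩ := hd (i1 1)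
  obtain ⟨g2, m2, w2⟩ := hd (i1 I)
  obtain ⟨g3, m3, w3⟩ := hd (i2 1)
  obtain ⟨g4, m4, w4⟩ := hd (i2 I)
  have a := toWD i1 1 mf m1 m2 w1 w2
  have a' := toWD i1 (-1) mf m1 m2 w1 w2
  have b := toWD i2 1 mf m3 m4 w3 w4
  have b' := toWD i2 (-1) mf m3 m4 w3 w4
  exact ⟨_, _, _, _, ⟨mf, a.1, a'.1, b.1, b'.1, a.2, a'.2, b.2, b'.2⟩⟩

theorem ofWD {u X Y f₁ f₂ : ℂ × ℂ → ℂ}
    (mu : MemLp u 2 (volume.restrict (HartogsTriangle (m + 1))))
    (mX : MemLp X 2 (volume.restrict (HartogsTriangle (m + 1))))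
    (mY : MemLp Y 2 (volume.restrict (HartogsTriangle (m + 1))))
    (m1 : MemLp f₁ 2 (volume.restrict (HartogsTriangle (m + 1))))
    (m2 : MemLp f₂ 2 (volume.restrict (HartogsTriangle (m + 1))))
    (w1 : WD (HartogsTriangle (m + 1)) i1 1 u f₁) (w2 : WD (HartogsTriangle (m + 1)) i2 1 u f₂)
    (w3 : WD (HartogsTriangle (m + 1)) i1 (-1) u X) (w4 : WD (HartogsTriangle (m + 1)) i2 (-1) u Y) :
    MemW1 (HartogsTriangle (m + 1)) u := by
  refine ⟨mu, fun v => ⟨fun p => conj v.1 * f₁ p + v.1 * X p + (conj v.2 * f₂ p + v.2 * Y p), ?_, ?_⟩⟩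
  · exact ((m1.const_mul _).add (mX.const_mul _)).add ((m2.const_mul _).add (mY.const_mul _))
  · intro φ hφ
    have hφ' : Pool.Agent.H807R3.IsTest (HartogsTriangle (m + 1)) φ := hφ
    have iφ : ∀ {k : ℂ × ℂ → ℂ} (a : ℂ), MemLp k 2 (volume.restrict (HartogsTriangle (m + 1))) →
        Integrable (fun p => a * (k p * φ p)) (volume.restrict (HartogsTriangle (m + 1))) :=
      fun a hk => (hk.integrable_mul (hφ'.cc.memLp.restrict _)).const_mul a
    have iD : ∀ (a : ℂ) (ι : ℂ →L[ℝ] ℂ × ℂ) (c : ℂ),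
        Integrable (fun p => a * (u p * D ι c φ p)) (volume.restrict (HartogsTriangle (m + 1))) :=
      fun a ι c => (mu.integrable_mul ((hφ'.D ι c).cc.memLp.restrict _)).const_mul a
    have hpt : ∀ p, fderiv ℝ φ p v = conj v.1 * D i1 1 φ p + v.1 * D i1 (-1) φ p +
        (conj v.2 * D i2 1 φ p + v.2 * D i2 (-1) φ p) := by
      intro p
      have h1 := Pool.Agent.H807R3.fderiv_decomp φ p v.1 v.2
      have h2 : ∀ z : ℂ, z = z.re + z.im * I := fun z => (Complex.re_add_im z).symm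
      have h3 : ∀ z : ℂ, conj z = z.re - z.im * I := by
        intro z
        apply Complex.ext <;> simp
      have h4 : fderiv ℝ φ p v = fderiv ℝ φ p (v.1, v.2) := rfl
      rw [h4, h1, h3, h3]
      unfold D
      set g1 := fderiv ℝ φ p (i1 1)
      set g2 := fderiv ℝ φ p (i1 I)
      set g3 := fderiv ℝ φ p (i2 1)
      set g4 := fderiv ℝ φ p (i2 I)
      have e1 : v.1 * ((g1 + -1 * I * g2) / 2) = (v.1.re + v.1.im * I) * ((g1 + -1 * I * g2) / 2) := by
        rw [← h2]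
      have e2 : v.2 * ((g3 + -1 * I * g4) / 2) = (v.2.re + v.2.im * I) * ((g3 + -1 * I * g4) / 2) := by
        rw [← h2]
      rw [e1, e2]
      have := I_mul_I
      linear_combination ((v.1.im : ℂ) * g2 + (v.2.im : ℂ) * g4) * this
    have i12 : Integrable (fun p => conj v.1 * (u p * D i1 1 φ p) + v.1 * (u p * D i1 (-1) φ p))
        (volume.restrict (HartogsTriangle (m + 1))) := (iD _ _ _).add (iD _ _ _)
    have i34 : Integrable (fun p => conj v.2 * (u p * D i2 1 φ p) + v.2 * (u p * D i2 (-1) φ p))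
        (volume.restrict (HartogsTriangle (m + 1))) := (iD _ _ _).add (iD _ _ _)
    have j12 : Integrable (fun p => conj v.1 * (f₁ p * φ p) + v.1 * (X p * φ p))
        (volume.restrict (HartogsTriangle (m + 1))) := (iφ _ m1).add (iφ _ mX)
    have j34 : Integrable (fun p => conj v.2 * (f₂ p * φ p) + v.2 * (Y p * φ p))
        (volume.restrict (HartogsTriangle (m + 1))) := (iφ _ m2).add (iφ _ mY)
    have e1 : ∫ p in HartogsTriangle (m + 1), u p * fderiv ℝ φ p v =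
        conj v.1 * (∫ p in HartogsTriangle (m + 1), u p * D i1 1 φ p) +
        v.1 * (∫ p in HartogsTriangle (m + 1), u p * D i1 (-1) φ p) +
        (conj v.2 * (∫ p in HartogsTriangle (m + 1), u p * D i2 1 φ p) +
        v.2 * (∫ p in HartogsTriangle (m + 1), u p * D i2 (-1) φ p)) := by
      rw [← integral_const_mul, ← integral_const_mul, ← integral_const_mul, ← integral_const_mul,
        ← integral_add (iD _ _ _) (iD _ _ _), ← integral_add (iD _ _ _) (iD _ _ _),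
        ← integral_add i12 i34]
      congr 1
      funext p
      rw [hpt]; ring
    have e2 : ∫ p in HartogsTriangle (m + 1),
        (conj v.1 * f₁ p + v.1 * X p + (conj v.2 * f₂ p + v.2 * Y p)) * φ p =
        conj v.1 * (∫ p in HartogsTriangle (m + 1), f₁ p * φ p) +
        v.1 * (∫ p in HartogsTriangle (m + 1), X p * φ p) +
        (conj v.2 * (∫ p in HartogsTriangle (m + 1), f₂ p * φ p) +
        v.2 * (∫ p in HartogsTriangle (m + 1), Y p * φ p)) := by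
      rw [← integral_const_mul, ← integral_const_mul, ← integral_const_mul, ← integral_const_mul,
        ← integral_add (iφ _ m1) (iφ _ mX), ← integral_add (iφ _ m2) (iφ _ mY),
        ← integral_add j12 j34]
      congr 1
      funext p
      ring
    rw [e1, e2, w1 φ hφ', w2 φ hφ', w3 φ hφ', w4 φ hφ']; ring

theorem dzbar_eq (φ : ℂ × ℂ → ℂ) (p : ℂ × ℂ) : dzbar φ p = D i1 1 φ p := by
  unfold dzbar D
  rw [Pool.Agent.H807R3.i1_apply, Pool.Agent.H807R3.i1_apply, one_mul]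

theorem dwbar_eq (φ : ℂ × ℂ → ℂ) (p : ℂ × ℂ) : dwbar φ p = D i2 1 φ p := by
  unfold dwbar D
  rw [Pool.Agent.H807R3.i2_apply, Pool.Agent.H807R3.i2_apply, one_mul]

/-- `H^{0,1}_{W¹}(T_k) = 0` for every thin Hartogs triangle `T_k`, `k ≥ 1`. -/
theorem result (k : ℕ) (hk : 1 ≤ k) (f₁ f₂ : ℂ × ℂ → ℂ) (h₁ : MemW1 (HartogsTriangle k) f₁)
    (h₂ : MemW1 (HartogsTriangle k) f₂) (hf : DbarClosed (HartogsTriangle k) f₁ f₂) :
    ∃ u : ℂ × ℂ → ℂ, MemW1 (HartogsTriangle k) u ∧ DbarEq (HartogsTriangle k) u f₁ f₂ := by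
  obtain ⟨m, rfl⟩ : ∃ m, k = m + 1 := ⟨k - 1, by omega⟩
  obtain ⟨A1, A1', C1, C1', W1⟩ := toWirt h₁
  obtain ⟨A2, A2', C2, C2', W2⟩ := toWirt h₂
  have hcl : ∀ φ, Pool.Agent.H807R3.IsTest (Pool.Agent.KS6_3.HT.T m) φ →
      ∫ p in Pool.Agent.KS6_3.HT.T m, f₁ p * D i2 1 φ p =
      ∫ p in Pool.Agent.KS6_3.HT.T m, f₂ p * D i1 1 φ p := by
    intro φ hφ
    have := hf φ hφ
    simp_rw [dzbar_eq, dwbar_eq] at this
    exact this
  obtain ⟨u, X, Y, mu, mX, mY, w1, w2, w3, w4⟩ := main_T W1 W2 hcl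
  refine ⟨u, ofWD mu mX mY h₁.1 h₂.1 w1 w2 w3 w4, ?_⟩
  intro φ hφ
  simp_rw [dzbar_eq, dwbar_eq]
  exact ⟨w1 φ hφ, w2 φ hφ⟩

end Pool.Agent.Results.MP_cbee92_an.ThinTriangles
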